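import Pool.Agent.H23.LC.Targets
import Pool.Agent.H92.RC.ID

/-!
# (SM) measurability, bounds and supports
-/

set_option autoImplicit false

open NumberField NumberField.InfinitePlace NumberField.Units
  NumberField.Units.dirichletUnitTheorem MeasureTheory Set Filter Complex
open scoped nonZeroDivisors ENNReal

namespace Pool.Agent.H21.GLB

open Pool.Agent.H25.HK Pool.Agent.H23.LB Pool.Agent.H23.LC
open Pool.Agent.H28.RC (Rep ft idl)

section

variable {K : Type} [Field K] [NumberField K]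

/-- finitely many points in a bounded region -/
lemma fin_set (hTH : T_TH) (M : FI K) (hM : M ≠ 0) (R : ℝ) :
    {x : {x : K // x ∈ M} | ∀ v : InfinitePlace K, v x.1 ≤ R}.Finite := by
  have hs := (hTH K M hM 0).1
  have h1 := hs.tendsto_cofinite_zero
  set B : ℝ := ∑ v : InfinitePlace K, (v.mult : ℝ) * R ^ 2 with hB
  have h2 : ∀ᶠ x : {x : K // x ∈ M} in cofinite,
      Real.exp (-Real.pi * qK K 0 x) < Real.exp (-Real.pi * B) :=
    h1.eventually_lt_const (Real.exp_pos _)
  rw [eventually_cofinite] at h2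
  refine h2.subset ?_
  intro x hx
  change ¬ (_ < _)
  rw [not_lt]
  apply Real.exp_le_exp.2
  have h3 : qK K 0 x.1 ≤ B := by
    unfold qK
    rw [hB]
    refine Finset.sum_le_sum fun v _ => ?_
    have h4 : 0 ≤ v x.1 := apply_nonneg v _
    simp only [Pi.zero_apply, Real.exp_zero, mul_one]
    exact mul_le_mul_of_nonneg_left (pow_le_pow_left₀ h4 (hx v) 2) (by positivity)
  nlinarith [Real.pi_pos]

/-- the norm of `x M⁻¹` -/
lemma norm_idl (M : FI K) (hM : M ≠ 0) (x : K) (hx : x ∈ M) :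
    (Ideal.absNorm (idl K M x) : ℝ) * (FractionalIdeal.absNorm M : ℝ) =
      ((|Algebra.norm ℚ x| : ℚ) : ℝ) := by
  have h := Pool.Agent.H92.RC.idl_mul M hM hx
  have h1 := congrArg (FractionalIdeal.absNorm (R := 𝓞 K) (K := K)) h
  rw [map_mul, FractionalIdeal.absNorm_span_singleton, FractionalIdeal.coeIdeal_absNorm] at h1
  rw [← h1]
  push_cast
  ring

lemma sum_log (x : K) (hx : x ≠ 0) : ∑ v : InfinitePlace K, (v.mult : ℝ) * Real.log (v x) =
    Real.log ((|Algebra.norm ℚ x| : ℚ) : ℝ) := by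
  have h := prod_eq_abs_norm x
  rw [← h, Real.log_prod]
  · refine Finset.sum_congr rfl fun v _ => ?_
    rw [Real.log_pow]
  · intro v _
    exact pow_ne_zero _ ((map_ne_zero v).2 hx)

/-- near one, the logarithm is small -/
lemma log_near {t δ : ℝ} (h : |t - 1| ≤ δ) (hδ : δ ≤ 1 / 2) : |Real.log t| ≤ 2 * δ := by
  rw [abs_le] at h
  have hδ0 : 0 ≤ δ := by linarith [h.1, h.2]
  have ht : 0 < t := by linarith [h.1]
  rw [abs_le]
  constructor
  · have h1 := Real.one_sub_inv_le_log_of_pos ht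
    have h2 : t⁻¹ ≤ 1 + 2 * δ := by
      rw [inv_le_comm₀ ht (by positivity), inv_le_iff_one_le_mul₀ (by positivity)]
      nlinarith [h.1]
    linarith
  · have h1 := Real.log_le_sub_one_of_pos ht
    linarith [h.2]

/-- the support in the norm variable -/
lemma supp_core (hYC : T_YC) (M : FI K) (hM : M ≠ 0) (δ Y : ℝ) (hδ : 0 < δ)
    (hδn : Module.finrank ℚ K * δ ≤ 1 / 8) (hY : 0 < Y) (x : K) (hx : Bl Y M x) (τ : ℝ)
    (z : logSpace K)
    (h : ∀ v : InfinitePlace K, |v x * Real.exp (yM K M τ z v / 2) - 1| ≤ δ) :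
    |τ + Real.log Y| ≤ 1 := by
  obtain ⟨hxM, hx0, hY1, hY2⟩ := hx
  have hn1 : (1 : ℝ) ≤ Module.finrank ℚ K := by exact_mod_cast Module.finrank_pos
  have hδ1 : δ ≤ 1 / 8 := by nlinarith
  have hMpos : 0 < (FractionalIdeal.absNorm M : ℝ) := by
    have h1 : FractionalIdeal.absNorm M ≠ 0 := by
      rw [Ne, FractionalIdeal.absNorm_eq_zero_iff]
      exact hM
    have h2 : 0 ≤ FractionalIdeal.absNorm M := FractionalIdeal.absNorm_nonneg M
    have h3 : 0 < FractionalIdeal.absNorm M := lt_of_le_of_ne h2 (Ne.symm h1)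
    exact_mod_cast h3
  have hIpos : 0 < (Ideal.absNorm (idl K M x) : ℝ) := hY.trans_le hY1
  have hlog : ∀ v : InfinitePlace K, |Real.log (v x) + yM K M τ z v / 2| ≤ 2 * δ := by
    intro v
    have h1 := log_near (h v) (by linarith)
    rwa [Real.log_mul ((map_ne_zero v).2 hx0) (Real.exp_ne_zero _), Real.log_exp] at h1
  have hsum : ∑ v : InfinitePlace K, (v.mult : ℝ) * (Real.log (v x) + yM K M τ z v / 2) =
      Real.log (Ideal.absNorm (idl K M x) : ℝ) + τ := by
    have h1 := (hYC K).1 (τ - Real.log (FractionalIdeal.absNorm M : ℝ)) z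
    have h2 := sum_log x hx0
    rw [← norm_idl M hM x hxM, Real.log_mul hIpos.ne' hMpos.ne'] at h2
    have h3 : ∑ v : InfinitePlace K, (v.mult : ℝ) * (Real.log (v x) + yM K M τ z v / 2) =
        ∑ v : InfinitePlace K, (v.mult : ℝ) * Real.log (v x) +
          (∑ v : InfinitePlace K, (v.mult : ℝ) * yM K M τ z v) / 2 := by
      rw [Finset.sum_div, ← Finset.sum_add_distrib]
      refine Finset.sum_congr rfl fun v _ => ?_
      ring
    unfold yM at *
    rw [h3, h2, h1]
    ring
  have habs : |Real.log (Ideal.absNorm (idl K M x) : ℝ) + τ| ≤ 1 / 4 := by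
    rw [← hsum]
    refine (Finset.abs_sum_le_sum_abs _ _).trans ?_
    have h1 : ∀ v ∈ (Finset.univ : Finset (InfinitePlace K)),
        |(v.mult : ℝ) * (Real.log (v x) + yM K M τ z v / 2)| ≤ (v.mult : ℝ) * (2 * δ) := by
      intro v _
      rw [abs_mul, Nat.abs_cast]
      exact mul_le_mul_of_nonneg_left (hlog v) (by positivity)
    refine (Finset.sum_le_sum h1).trans ?_
    rw [← Finset.sum_mul]
    have h2 : ∑ v : InfinitePlace K, (v.mult : ℝ) = Module.finrank ℚ K := by
      exact_mod_cast sum_mult_eq (K := K)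
    rw [h2]
    linarith
  have hl1 : Real.log Y ≤ Real.log (Ideal.absNorm (idl K M x) : ℝ) := Real.log_le_log hY hY1
  have hl2 : Real.log (Ideal.absNorm (idl K M x) : ℝ) ≤ Real.log 2 + Real.log Y := by
    rw [← Real.log_mul two_ne_zero hY.ne']
    exact Real.log_le_log hIpos hY2.le
  have hl3 := Real.log_two_lt_d9
  rw [abs_le] at *
  constructor <;> linarith [habs.1, habs.2]

/-- the general form of (SM) -/
theorem gen (hTH : T_TH) (hYC : T_YC) (hFD : T_FD) (M : FI K) (hM : M ≠ 0) (δ Y : ℝ)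
    (hδ : 0 < δ) (hδn : Module.finrank ℚ K * δ ≤ 1 / 8) (hY : 0 < Y) (s : ℝ)
    (hs : s = 1 ∨ s = -1) (c : K → ℂ)
    (P : K → (logSpace K × ℝ × (InfinitePlace K → ℝ)) → Prop)
    (hPm : ∀ x, MeasurableSet {p | P x p})
    (hP : ∀ x p, P x p → ∀ v : InfinitePlace K,
      |v x * Real.exp (yM K M p.2.1 (s • p.1) v / 2) - 1| ≤ δ)
    (G : (logSpace K × ℝ × (InfinitePlace K → ℝ)) → ℂ)
    (hG : ∀ p, G p = ∑' x : {x : K // Bl Y M x}, (open scoped Classical in
      if P x.1 p then c x.1 else 0)) :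
    Measurable G ∧ (∃ C : ℝ, 0 ≤ C ∧ ∀ p, p.1 ∈ Fd K → ‖G p‖ ≤ C) ∧
      ∀ p, G p ≠ 0 → |p.2.1 + Real.log Y| ≤ 1 := by
  classical
  have hn1 : (1 : ℝ) ≤ Module.finrank ℚ K := by exact_mod_cast Module.finrank_pos
  have hδ1 : δ ≤ 1 / 8 := by nlinarith
  have hsz : ∀ (z : logSpace K) w, |(s • z) w| = |z w| := by
    intro z w
    rcases hs with rfl | rfl
    · simp
    · simp
  -- supports
  have hsupp : ∀ p, G p ≠ 0 → |p.2.1 + Real.log Y| ≤ 1 := by
    intro p hp
    have h1 : ∃ x : {x : K // Bl Y M x}, P x.1 p := by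
      by_contra hcon
      push Not at hcon
      apply hp
      rw [hG]
      have : ∀ x : {x : K // Bl Y M x}, (if P x.1 p then c x.1 else 0) = 0 := fun x =>
        if_neg (hcon x)
      simp [this]
    obtain ⟨x, hx⟩ := h1
    exact supp_core hYC M hM δ Y hδ hδn hY x.1 x.2 p.2.1 (s • p.1) (hP _ _ hx)
  -- local finiteness
  have hfin : ∀ B : ℝ, ∃ F : Finset {x : K // Bl Y M x},
      ∀ p : logSpace K × ℝ × (InfinitePlace K → ℝ), (∀ w, |p.1 w| ≤ B) → |p.2.1| ≤ B →
      ∀ x : {x : K // Bl Y M x}, P x.1 p → x ∈ F := by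
    intro B
    obtain ⟨C, hC⟩ := (hYC K).2.2.2.2.2 B
    set A : ℝ := |Real.log (FractionalIdeal.absNorm M : ℝ)| with hA
    set D : ℝ := |2 * (B + A)| + |C| with hD
    have hfs := fin_set hTH M hM (2 * Real.exp D)
    have hfs2 : {x : {x : K // Bl Y M x} | ∀ v : InfinitePlace K, v x.1 ≤ 2 * Real.exp D}.Finite := by
      let g : {x : K // Bl Y M x} → {x : K // x ∈ M} := fun x => ⟨x.1, x.2.1⟩
      have hg : Function.Injective g := by
        intro x x' h
        have h1 : (g x).1 = (g x').1 := congrArg Subtype.val h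
        exact Subtype.ext h1
      exact Set.Finite.preimage hg.injOn hfs
    refine ⟨hfs2.toFinset, fun p hp1 hp2 x hx => ?_⟩
    rw [Set.Finite.mem_toFinset]
    intro v
    have h1 := hP _ _ hx v
    have h2 : -(2 * D) ≤ yM K M p.2.1 (s • p.1) v := by
      unfold yM
      rw [(hYC K).2.2.2.1]
      have h3 := hC (s • p.1) (fun w => by rw [hsz]; exact hp1 w) v
      have h4 : |p.2.1 - Real.log (FractionalIdeal.absNorm M : ℝ)| ≤ B + A :=
        (abs_sub _ _).trans (add_le_add hp2 le_rfl)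
      have h5 : |2 * (p.2.1 - Real.log (FractionalIdeal.absNorm M : ℝ)) /
          (Module.finrank ℚ K : ℝ)| ≤ |2 * (B + A)| := by
        rw [abs_div, abs_of_pos (by linarith : (0 : ℝ) < (Module.finrank ℚ K : ℝ))]
        rw [div_le_iff₀ (by linarith)]
        rw [abs_mul, abs_mul]
        have h6 : |p.2.1 - Real.log (FractionalIdeal.absNorm M : ℝ)| ≤
            |B + A| := h4.trans (le_abs_self _)
        have h7 : 0 ≤ |(2 : ℝ)| * |B + A| := by
          positivity
        have h8 := mul_le_mul_of_nonneg_left h6 (abs_nonneg (2 : ℝ))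
        nlinarith
      have h6 := neg_abs_le (2 * (p.2.1 - Real.log (FractionalIdeal.absNorm M : ℝ)) /
          (Module.finrank ℚ K : ℝ))
      have h7 := neg_abs_le (yc K 0 (s • p.1) v)
      have h8 := le_abs_self C
      have h9 : 0 ≤ D := by rw [hD]; positivity
      linarith
    have h3 : v x.1 * Real.exp (yM K M p.2.1 (s • p.1) v / 2) ≤ 2 := by
      rw [abs_le] at h1
      linarith [h1.2]
    have h4 : Real.exp (-D) ≤ Real.exp (yM K M p.2.1 (s • p.1) v / 2) :=
      Real.exp_le_exp.2 (by linarith)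
    have h5 : 0 ≤ v x.1 := apply_nonneg v _
    have h6 : v x.1 * Real.exp (-D) ≤ 2 := (mul_le_mul_of_nonneg_left h4 h5).trans h3
    have h7 : v x.1 = (v x.1 * Real.exp (-D)) * Real.exp D := by
      rw [mul_assoc, ← Real.exp_add]
      simp
    rw [h7]
    exact mul_le_mul_of_nonneg_right h6 (Real.exp_pos _).le
  choose F hF using hfin
  have hGF : ∀ (B : ℝ) (p : logSpace K × ℝ × (InfinitePlace K → ℝ)), (∀ w, |p.1 w| ≤ B) →
      |p.2.1| ≤ B → G p = ∑ x ∈ F B, if P x.1 p then c x.1 else 0 := by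
    intro B p h1 h2
    rw [hG]
    refine tsum_eq_sum fun x hx => ?_
    exact if_neg fun h => hx (hF B p h1 h2 x h)
  refine ⟨?_, ?_, hsupp⟩
  · refine measurable_of_tendsto_metrizable
      (f := fun (k : ℕ) p => ∑ x ∈ F (k : ℝ), if P x.1 p then c x.1 else 0) ?_ ?_
    · intro k
      refine Finset.measurable_fun_sum _ fun x _ => ?_
      exact Measurable.ite (hPm x.1) measurable_const measurable_const
    · rw [tendsto_pi_nhds]
      intro p
      have h1 : ∃ B : ℝ, (∀ w, |p.1 w| ≤ B) ∧ |p.2.1| ≤ B := by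
        refine ⟨∑ w, |p.1 w| + |p.2.1|, fun w => ?_, ?_⟩
        · have := Finset.single_le_sum (f := fun w => |p.1 w|) (fun _ _ => abs_nonneg _)
            (Finset.mem_univ w)
          have h2 := abs_nonneg p.2.1
          linarith
        · have : 0 ≤ ∑ w, |p.1 w| := Finset.sum_nonneg fun _ _ => abs_nonneg _
          linarith
      obtain ⟨B, hB1, hB2⟩ := h1
      obtain ⟨k₀, hk₀⟩ := exists_nat_ge B
      refine tendsto_const_nhds.congr' ?_
      filter_upwards [eventually_ge_atTop k₀] with k hk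
      have hk' : B ≤ (k : ℝ) := hk₀.trans (by exact_mod_cast hk)
      exact hGF (k : ℝ) p (fun w => (hB1 w).trans hk') (hB2.trans hk')
  · obtain ⟨B₀, hB₀⟩ := (hFD K).2.1
    set B : ℝ := max B₀ (1 + |Real.log Y|) with hB
    refine ⟨∑ x ∈ F B, ‖c x.1‖, Finset.sum_nonneg fun _ _ => norm_nonneg _, fun p hp => ?_⟩
    by_cases h0 : G p = 0
    · rw [h0, norm_zero]
      exact Finset.sum_nonneg fun _ _ => norm_nonneg _
    · have h1 := hsupp p h0
      have h2 : |p.2.1| ≤ B := by
        have h3 : |p.2.1| ≤ 1 + |Real.log Y| := by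
          have h4 : p.2.1 = (p.2.1 + Real.log Y) - Real.log Y := by ring
          rw [h4]
          exact (abs_sub _ _).trans (add_le_add h1 le_rfl)
        exact h3.trans (le_max_right _ _)
      rw [hGF B p (fun w => (hB₀ p.1 hp w).trans (le_max_left _ _)) h2]
      refine (norm_sum_le _ _).trans (Finset.sum_le_sum fun x _ => ?_)
      split_ifs
      · exact le_rfl
      · rw [norm_zero]
        exact norm_nonneg _

lemma norm_an (v : InfinitePlace K) (θ : ℝ) : ‖an v θ‖ = 1 := by
  unfold an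
  split_ifs
  · simp
  · simp
  · exact Complex.norm_exp_ofReal_mul_I θ

lemma meas_an (v : InfinitePlace K) : Measurable (an v) := by
  classical
  by_cases h : v.IsReal
  · have : an v = fun θ => if θ < Real.pi then (1 : ℂ) else -1 := by
      funext θ
      simp [an, h]
    rw [this]
    exact Measurable.ite (measurableSet_lt measurable_id measurable_const) measurable_const
      measurable_const
  · have : an v = fun θ : ℝ => cexp (θ * I) := by
      funext θ
      simp [an, h]
    rw [this]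
    fun_prop

lemma near (v : InfinitePlace K) (x : K) (y δ : ℝ) (a : ℂ) (ha : ‖a‖ = 1)
    (h : ‖v.embedding x * ((Real.exp (y / 2) : ℝ) : ℂ) * a - 1‖ ≤ δ) :
    |v x * Real.exp (y / 2) - 1| ≤ δ := by
  have h1 : ‖v.embedding x * ((Real.exp (y / 2) : ℝ) : ℂ) * a‖ = v x * Real.exp (y / 2) := by
    rw [norm_mul, norm_mul, ha, mul_one, Complex.norm_real, Real.norm_of_nonneg
      (Real.exp_pos _).le]
    congr 1
    exact norm_embedding_eq v x
  have h2 := abs_norm_sub_norm_le (v.embedding x * ((Real.exp (y / 2) : ℝ) : ℂ) * a) 1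
  rw [h1, norm_one] at h2
  exact h2.trans h

lemma meas_yM (hYC : T_YC) (M : FI K) (s : ℝ) (v : InfinitePlace K) :
    Measurable (fun p : logSpace K × ℝ × (InfinitePlace K → ℝ) =>
      yM K M p.2.1 (s • p.1) v) := by
  have h1 := (hYC K).2.2.2.2.1
  have h2 : Continuous (fun p : ℝ × logSpace K => yc K p.1 p.2 v) :=
    (continuous_apply v).comp h1
  have h3 : Continuous (fun p : logSpace K × ℝ × (InfinitePlace K → ℝ) =>
      (p.2.1 - Real.log (FractionalIdeal.absNorm M : ℝ), s • p.1)) := by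
    fun_prop
  exact (h2.comp h3).measurable

end

/-- (SM) measurability, bounds and supports. -/
theorem pf_SM (hTH : T_TH) (hYC : T_YC) (hFD : T_FD) : U_SM := by
  classical
  intro K _ _ f M r δ Y b hf hM hδ hδn hY
  have hmBp : ∀ x : K, MeasurableSet {p : logSpace K × ℝ × (InfinitePlace K → ℝ) |
      Bp δ x (yM K M p.2.1 ((1 : ℝ) • p.1)) p.2.2} := by
    intro x
    have : {p : logSpace K × ℝ × (InfinitePlace K → ℝ) |
        Bp δ x (yM K M p.2.1 ((1 : ℝ) • p.1)) p.2.2} = ⋂ v : InfinitePlace K,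
        {p | ‖v.embedding x * ((Real.exp (yM K M p.2.1 ((1 : ℝ) • p.1) v / 2) : ℝ) : ℂ) *
          an v (p.2.2 v) - 1‖ ≤ δ} := by
      ext p
      simp only [Bp, Set.mem_iInter]
      rfl
    rw [this]
    refine MeasurableSet.iInter fun v => ?_
    refine measurableSet_le ?_ measurable_const
    have h1 := meas_yM hYC M 1 v
    have h2 : Measurable (fun p : logSpace K × ℝ × (InfinitePlace K → ℝ) => an v (p.2.2 v)) :=
      (meas_an v).comp ((measurable_pi_apply v).comp (measurable_snd.comp measurable_snd))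
    refine Measurable.norm ?_
    refine Measurable.sub_const ?_ _
    refine Measurable.mul ?_ h2
    refine Measurable.const_mul ?_ _
    exact Complex.measurable_ofReal.comp (Real.measurable_exp.comp (h1.div_const 2))
  have hmBd : ∀ x : K, MeasurableSet {p : logSpace K × ℝ × (InfinitePlace K → ℝ) |
      Bd δ x (yM K M p.2.1 ((-1 : ℝ) • p.1)) p.2.2} := by
    intro x
    have : {p : logSpace K × ℝ × (InfinitePlace K → ℝ) |
        Bd δ x (yM K M p.2.1 ((-1 : ℝ) • p.1)) p.2.2} = ⋂ v : InfinitePlace K,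
        {p | ‖v.embedding x * ((Real.exp (yM K M p.2.1 ((-1 : ℝ) • p.1) v / 2) : ℝ) : ℂ) *
          (starRingEnd ℂ) (an v (p.2.2 v)) - 1‖ ≤ δ} := by
      ext p
      simp only [Bd, Set.mem_iInter]
      rfl
    rw [this]
    refine MeasurableSet.iInter fun v => ?_
    refine measurableSet_le ?_ measurable_const
    have h1 := meas_yM hYC M (-1) v
    have h2 : Measurable (fun p : logSpace K × ℝ × (InfinitePlace K → ℝ) =>
        (starRingEnd ℂ) (an v (p.2.2 v))) :=
      (Complex.continuous_conj.measurable).comp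
        ((meas_an v).comp ((measurable_pi_apply v).comp (measurable_snd.comp measurable_snd)))
    refine Measurable.norm ?_
    refine Measurable.sub_const ?_ _
    refine Measurable.mul ?_ h2
    refine Measurable.const_mul ?_ _
    exact Complex.measurable_ofReal.comp (Real.measurable_exp.comp (h1.div_const 2))
  have hA := gen hTH hYC hFD M hM δ Y hδ hδn hY 1 (Or.inl rfl) (fun x => b (idl K M x))
    (fun x p => x - r ∈ (f : FI K) * M ∧ Bp δ x (yM K M p.2.1 ((1 : ℝ) • p.1)) p.2.2)
    (fun x => by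
      by_cases hx : x - r ∈ (f : FI K) * M
      · simpa [hx] using hmBp x
      · simp [hx])
    (fun x p hp v => near v x _ δ _ (norm_an v _) (hp.2 v))
    (fun p => Sp f δ Y b M r p.2.1 p.1 p.2.2) (fun p => by
      unfold Sp
      refine tsum_congr fun x => ?_
      simp only [one_smul])
  have hB := gen hTH hYC hFD M hM δ Y hδ hδn hY (-1) (Or.inr rfl)
    (fun x => b (idl K M x) * ca K r x)
    (fun x p => Bd δ x (yM K M p.2.1 ((-1 : ℝ) • p.1)) p.2.2) hmBd
    (fun x p hp v => near v x _ δ _ (by rw [RCLike.norm_conj]; exact norm_an v _) (hp v))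
    (fun p => Sd δ Y b M r p.2.1 p.1 p.2.2) (fun p => by
      unfold Sd
      refine tsum_congr fun x => ?_
      simp only [neg_smul, one_smul])
  obtain ⟨C1, hC1, hC1'⟩ := hA.2.1
  obtain ⟨C2, hC2, hC2'⟩ := hB.2.1
  refine ⟨hA.1, hB.1, ⟨max C1 C2, fun τ z θ hz => ⟨?_, ?_⟩⟩, fun τ z θ => ⟨?_, ?_⟩⟩
  · exact (hC1' (z, τ, θ) hz).trans (le_max_left _ _)
  · exact (hC2' (z, τ, θ) hz).trans (le_max_right _ _)
  · exact hA.2.2 (z, τ, θ)
  · exact hB.2.2 (z, τ, θ)

end Pool.Agent.H21.GLB
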